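import Pool.Agent.H92.EQ.TP
import Pool.Agent.H43.EQ.KJ

/-!
# PBD: derivative bounds for the cutoff of the first visit (MP_75a732_an)
-/

set_option autoImplicit false

namespace Pool.Agent.H61.EQ

open scoped BigOperators ComplexConjugate ContDiff ComplexOrder
open MeasureTheory Pool.Agent.H92.EQ Pool.Agent.H43.EQ

theorem nvsq_hom0 (h2 : T_W2) {N M : ℕ} {P : MvPolynomial (Fin N) ℂ} (hP : P.IsHomogeneous M)
    (hN : 0 < N) : Hom0 (fun z => nv P M z ^ 2) := by
  have e1 : (fun z => nv P M z ^ 2) = fun z => ‖MvPolynomial.eval z P‖ ^ 2 / nsq z ^ M := by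
    funext z
    unfold nv
    rw [div_pow, ← pow_mul, mul_comm M 2, pow_mul, KJ_nrm_sq]
  refine ⟨?_, ?_⟩
  · rw [e1]
    refine ContDiffOn.div ?_ ?_ ?_
    · exact ((h2 (Fin N) ⟨0, hN⟩ P 0).2.2.norm_sq ℝ).contDiffOn
    · exact (KJ_nsq_contDiff.pow M).contDiffOn
    · intro z hz
      exact pow_ne_zero _ (KJ_nsq_pos hz).ne'
  · intro l z hl hz
    have h3 : 0 < ‖l‖ := norm_pos_iff.2 hl
    have h4 := KJ_nrm_pos hz
    have h5 : nv P M (l • z) = nv P M z := by
      unfold nv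
      rw [KJ_evhom hP, KJ_nrm_smul, norm_mul, norm_pow, mul_pow]
      field_simp
    show nv P M (l • z) ^ 2 = nv P M z ^ 2
    rw [h5]

theorem prod_wd (hW1 : T_W1) {N : ℕ} (a : Fin N) (x : Fin N → ℂ) (s : Finset ℕ)
    (f : ℕ → (Fin N → ℂ) → ℝ) (D : ℕ → ℝ)
    (hdiff : ∀ i ∈ s, DifferentiableAt ℝ (cx (f i)) x)
    (h01 : ∀ i ∈ s, 0 ≤ f i x ∧ f i x ≤ 1) (hD : ∀ i ∈ s, ‖wd a (cx (f i)) x‖ ≤ D i) :
    DifferentiableAt ℝ (cx fun w => ∏ i ∈ s, f i w) x ∧
      ‖wd a (cx fun w => ∏ i ∈ s, f i w) x‖ ≤ ∑ i ∈ s, D i := by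
  classical
  induction s using Finset.induction_on with
  | empty =>
    have e1 : (cx fun w => ∏ i ∈ (∅ : Finset ℕ), f i w) = fun _ => (1 : ℂ) := by
      funext w
      unfold cx
      simp
    rw [e1]
    refine ⟨differentiableAt_const _, ?_⟩
    unfold wd
    simp
  | insert i s hi ih =>
    obtain ⟨ih1, ih2⟩ := ih (fun j hj => hdiff j (Finset.mem_insert_of_mem hj))
      (fun j hj => h01 j (Finset.mem_insert_of_mem hj))
      (fun j hj => hD j (Finset.mem_insert_of_mem hj))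
    have hi' := Finset.mem_insert_self i s
    have e1 : (cx fun w => ∏ j ∈ insert i s, f j w) =
        fun w => cx (f i) w * cx (fun w => ∏ j ∈ s, f j w) w := by
      funext w
      show ((∏ j ∈ insert i s, f j w : ℝ) : ℂ) = (f i w : ℂ) * ((∏ j ∈ s, f j w : ℝ) : ℂ)
      rw [Finset.prod_insert hi, Complex.ofReal_mul]
    rw [e1]
    refine ⟨(hdiff i hi').mul ih1, ?_⟩
    have h1 := (hW1 (Fin N) a (cx (f i)) (cx fun w => ∏ j ∈ s, f j w) x (hdiff i hi')
      ih1).2.2.1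
    rw [h1, Finset.sum_insert hi]
    refine (norm_add_le _ _).trans ?_
    rw [norm_mul, norm_mul]
    have h2 : ‖cx (f i) x‖ ≤ 1 := by
      unfold cx
      rw [Complex.norm_real, Real.norm_of_nonneg (h01 i hi').1]
      exact (h01 i hi').2
    have h3 : ‖cx (fun w => ∏ j ∈ s, f j w) x‖ ≤ 1 := by
      unfold cx
      have h4 : 0 ≤ ∏ j ∈ s, f j x := Finset.prod_nonneg fun j hj =>
        (h01 j (Finset.mem_insert_of_mem hj)).1
      rw [Complex.norm_real, Real.norm_of_nonneg h4]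
      exact Finset.prod_le_one (fun j hj => (h01 j (Finset.mem_insert_of_mem hj)).1)
        (fun j hj => (h01 j (Finset.mem_insert_of_mem hj)).2)
    have h4 : ‖cx (f i) x‖ * ‖wd a (cx fun w => ∏ j ∈ s, f j w) x‖ ≤ ∑ j ∈ s, D j := by
      refine (mul_le_mul h2 ih2 (norm_nonneg _) zero_le_one).trans (by rw [one_mul])
    have h5 : ‖cx (fun w => ∏ j ∈ s, f j w) x‖ * ‖wd a (cx (f i)) x‖ ≤ D i := by
      refine (mul_le_mul h3 (hD i hi') (norm_nonneg _) zero_le_one).trans (by rw [one_mul])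
    linarith

theorem it_hom {N d : ℕ} {F : Fin N → MvPolynomial (Fin N) ℂ} (hF : IsH d F) (n : ℕ) :
    ∀ (l : ℂ) (z : Fin N → ℂ), l ≠ 0 →
      ∃ c : ℂ, c ≠ 0 ∧ ev (iter F n) (l • z) = c • ev (iter F n) z := by
  induction n with
  | zero =>
    intro l z hl
    exact ⟨l, hl, by rw [KJ_ev_zero, KJ_ev_zero]⟩
  | succ n ih =>
    intro l z hl
    obtain ⟨c, hc, h⟩ := ih l z hl
    exact ⟨c ^ d, pow_ne_zero _ hc, by rw [KJ_ev_succ, KJ_ev_succ, h, KJ_ev_hom hF]⟩

theorem nu1_hom {N d : ℕ} (h2 : T_W2) {F : Fin N → MvPolynomial (Fin N) ℂ} (hF : IsH d F)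
    {v : (Fin N → ℂ) → ℝ} (hv : Hom0 v) (n : ℕ) :
    Hom0 (fun x => v (ev (iter F n) x)) := by
  refine ⟨?_, ?_⟩
  · refine hv.smooth.comp (KJ_ev_contDiff h2 (iter F n)).contDiffOn ?_
    intro x hx
    exact KJ_it_ne hF n hx
  · intro l z hl hz
    obtain ⟨c, hc, h⟩ := it_hom hF n l z hl
    show v (ev (iter F n) (l • z)) = v (ev (iter F n) z)
    rw [h, hv.hom c _ hc (KJ_it_ne hF n hz)]

/-- PBD -/
theorem pf_PBD (hKJ : T_KJ) (hW1 : T_W1) (hW2 : T_W2) (hW3 : T_W3) (hW7 : T_W7) (hPVI : T_PVI)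
    (h6 : T_L6) (hL1 : T_L1) (hL2 : T_L2) (hW6 : T_W6) : T_PBD := by
  intro N d M F P hN hd hF hP b hb
  obtain ⟨K, hK, hKJ'⟩ := hKJ N d F hN hd hF
  obtain ⟨C0, hC0, hsT⟩ := KJ_sT
  have hg := nvsq_hom0 hW2 hP hN
  obtain ⟨B, hB, hB1, hB2⟩ := KJ_Hom0_bd h6 hL1 hL2 hW6 hg
  have hjac : ∀ (n : ℕ) (x : Fin N → ℂ), nrm x = 1 → ∀ i a,
      ‖jac (iter F n) x i a‖ ≤ K ^ (n + 1) * nrm (ev (iter F n) x) := by
    intro n
    obtain ⟨κ, _, _, _, _, h, _⟩ := hKJ' n 1 one_pos le_rfl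
    exact h
  have hne : ∀ x : Fin N → ℂ, nrm x = 1 → x ≠ 0 := by
    intro x hx h
    rw [h] at hx
    unfold nrm nsq at hx
    simp at hx
  let C2 : ℝ := b + 1 + B
  have hC2 : 0 ≤ C2 := by simp only [C2]; linarith
  let T : ℝ := 1 + B + C2 + C2 * (C0 * (N * B))
  have hNB : 0 ≤ C2 * (C0 * (N * B)) := by positivity
  have hT1 : 1 ≤ T := by simp only [T]; linarith
  refine ⟨2 * K * T, by nlinarith, ?_⟩
  intro j r hr hr1 κ hκ
  have hr2 : 0 < r ^ 2 := by positivity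
  have hr3 : 0 < r ^ 3 := by positivity
  obtain ⟨hv1, hv2, _, _⟩ := hPVI N M P r hP hr
  let f : ℕ → (Fin N → ℂ) → ℝ := fun i w => 1 - vis P M r (ev (iter F (j - i)) w)
  let φ : (Fin N → ℂ) → ℝ := fun w => b - (1 / 2) * Real.log (nv P M w ^ 2 + r ^ 2)
  have hκ' : κ = fun x => (∏ i ∈ Finset.Ico 0 j, f i x) * φ x := hκ
  have hf0 : ∀ i, Hom0 (f i) := by
    intro i
    have h1 := nu1_hom hW2 hF hv1 (j - i)
    refine ⟨contDiffOn_const.sub h1.smooth, ?_⟩
    intro l z hl hz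
    show 1 - vis P M r (ev (iter F (j - i)) (l • z)) = 1 - vis P M r (ev (iter F (j - i)) z)
    have h3 : vis P M r (ev (iter F (j - i)) (l • z)) = vis P M r (ev (iter F (j - i)) z) :=
      h1.hom l z hl hz
    rw [h3]
  have hf01 : ∀ i x, 0 ≤ f i x ∧ f i x ≤ 1 := by
    intro i x
    have := hv2 (ev (iter F (j - i)) x)
    constructor
    · show 0 ≤ 1 - _
      linarith
    · show 1 - _ ≤ 1
      linarith
  have hpos : ∀ w : Fin N → ℂ, 0 < nv P M w ^ 2 + r ^ 2 := fun w => by positivity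
  have hφ0 : Hom0 φ := by
    refine ⟨?_, ?_⟩
    · refine contDiffOn_const.sub (contDiffOn_const.mul ?_)
      refine ContDiffOn.log (hg.smooth.add contDiffOn_const) ?_
      intro w _
      exact (hpos w).ne'
    · intro l z hl hz
      show b - (1 / 2) * Real.log (nv P M (l • z) ^ 2 + r ^ 2) = _
      have h3 : nv P M (l • z) ^ 2 = nv P M z ^ 2 := hg.hom l z hl hz
      rw [h3]
  -- the derivative of the functions g (F^l)
  have hGl : ∀ (l : ℕ) (x : Fin N → ℂ), nrm x = 1 → ∀ a,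
      ‖wd a (cx fun w => nv P M (ev (iter F l) w) ^ 2) x‖ ≤ N * (K ^ (l + 1) * B) := by
    intro l x hx a
    have hy : ev (iter F l) x ≠ 0 := KJ_it_ne hF l (hne x hx)
    have hdiff : DifferentiableAt ℝ (cx fun z => nv P M z ^ 2) (ev (iter F l) x) :=
      ((KJ_cx_contDiff hg.smooth).contDiffAt
        (isOpen_compl_singleton.mem_nhds hy)).differentiableAt (by simp)
    have h1 := (hW3 (Fin N) (Fin N) (iter F l) (cx fun z => nv P M z ^ 2) x a hdiff).1
    have h2 : (cx fun w => nv P M (ev (iter F l) w) ^ 2) =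
        fun w => (cx fun z => nv P M z ^ 2) (ev (iter F l) w) := rfl
    rw [h2, h1]
    refine (norm_sum_le _ _).trans ?_
    have h3 : ∀ i ∈ (Finset.univ : Finset (Fin N)), ‖jac (iter F l) x i a *
        wd i (cx fun z => nv P M z ^ 2) (ev (iter F l) x)‖ ≤ K ^ (l + 1) * B := by
      intro i _
      rw [norm_mul]
      calc ‖jac (iter F l) x i a‖ * ‖wd i (cx fun z => nv P M z ^ 2) (ev (iter F l) x)‖
          ≤ (K ^ (l + 1) * nrm (ev (iter F l) x)) *
            ‖wd i (cx fun z => nv P M z ^ 2) (ev (iter F l) x)‖ :=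
            mul_le_mul_of_nonneg_right (hjac l x hx i a) (norm_nonneg _)
        _ = K ^ (l + 1) * (‖wd i (cx fun z => nv P M z ^ 2) (ev (iter F l) x)‖ *
            nrm (ev (iter F l) x)) := by ring
        _ ≤ K ^ (l + 1) * B :=
            mul_le_mul_of_nonneg_left (hB2 _ hy i) (by positivity)
    refine (Finset.sum_le_sum h3).trans ?_
    rw [Finset.sum_const, Finset.card_univ, Fintype.card_fin, nsmul_eq_mul]
  -- the factors
  have hfw : ∀ (i : ℕ) (x : Fin N → ℂ), nrm x = 1 → ∀ a,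
      ‖wd a (cx (f i)) x‖ ≤ C0 / r ^ 2 * (N * (K ^ (j + 1) * B)) := by
    intro i x hx a
    let χ : ℝ → ℝ := fun s => Real.smoothTransition (s / r ^ 2 - 1)
    have e1 : cx (f i) = cx fun w => χ (nv P M (ev (iter F (j - i)) w) ^ 2) := by
      funext w
      unfold cx
      congr 1
      simp only [f, χ]
      unfold vis lam
      ring
    have hGs := nu1_hom hW2 hF hg (j - i)
    have hχ : ContDiff ℝ 2 χ :=
      (Real.smoothTransition.contDiff).comp ((contDiff_id.div_const _).sub contDiff_const)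
    have h1 := (hW7 (Fin N) (fun w => nv P M (ev (iter F (j - i)) w) ^ 2)
      (fun w => nv P M (ev (iter F (j - i)) w) ^ 2) χ x (KJ_wd_eq hGs.smooth (hne x hx))
      (KJ_wd_eq hGs.smooth (hne x hx)) hχ.contDiffAt).1 a
    rw [e1, h1, norm_mul, Complex.norm_real, Real.norm_eq_abs]
    have h3 : ∀ s, |deriv χ s| ≤ C0 / r ^ 2 := by
      intro s
      have h4 : HasDerivAt χ (deriv Real.smoothTransition (s / r ^ 2 - 1) * (1 / r ^ 2)) s := by
        have h5 : HasDerivAt Real.smoothTransition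
            (deriv Real.smoothTransition (s / r ^ 2 - 1)) (s / r ^ 2 - 1) :=
          ((Real.smoothTransition.contDiff (n := 1)).differentiable (by simp) _).hasDerivAt
        exact h5.comp s (((hasDerivAt_id s).div_const (r ^ 2)).sub_const 1)
      rw [h4.deriv, abs_mul, abs_of_pos (show 0 < 1 / r ^ 2 by positivity)]
      have h5 := hsT (s / r ^ 2 - 1)
      have h6 := mul_le_mul_of_nonneg_right h5 (show 0 ≤ 1 / r ^ 2 by positivity)
      rw [mul_one_div, mul_one_div] at h6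
      rw [mul_one_div]
      exact h6
    refine mul_le_mul (h3 _) ((hGl _ x hx a).trans ?_) (norm_nonneg _) (by positivity)
    refine mul_le_mul_of_nonneg_left ?_ (Nat.cast_nonneg _)
    refine mul_le_mul_of_nonneg_right ?_ (by linarith)
    exact pow_le_pow_right₀ hK (by omega)
  -- the logarithm
  have hφw : ∀ (x : Fin N → ℂ), nrm x = 1 → ∀ a, ‖wd a (cx φ) x‖ ≤ B / r ^ 2 := by
    intro x hx a
    let ψ : ℝ → ℝ := fun s => b - (1 / 2) * Real.log (s + r ^ 2)
    have hψ : ContDiffAt ℝ 2 ψ (nv P M x ^ 2) := by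
      refine contDiffAt_const.sub (contDiffAt_const.mul ?_)
      exact (contDiffAt_id.add contDiffAt_const).log (hpos x).ne'
    have h1 := (hW7 (Fin N) (fun w => nv P M w ^ 2) (fun w => nv P M w ^ 2) ψ x
      (KJ_wd_eq hg.smooth (hne x hx)) (KJ_wd_eq hg.smooth (hne x hx)) hψ).1 a
    have e1 : cx φ = cx fun w => ψ (nv P M w ^ 2) := rfl
    rw [e1, h1, norm_mul, Complex.norm_real, Real.norm_eq_abs]
    have h4 : HasDerivAt ψ (-((1 / 2) * (1 / (nv P M x ^ 2 + r ^ 2)))) (nv P M x ^ 2) := by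
      have h5 : HasDerivAt (fun s => Real.log (s + r ^ 2)) (1 / (nv P M x ^ 2 + r ^ 2))
          (nv P M x ^ 2) :=
        ((hasDerivAt_id (nv P M x ^ 2)).add_const (r ^ 2)).log (hpos x).ne'
      exact (h5.const_mul (1 / 2)).const_sub b
    have h5 : |deriv ψ (nv P M x ^ 2)| ≤ 1 / r ^ 2 := by
      rw [h4.deriv, abs_neg, abs_of_pos (by have := hpos x; positivity)]
      have h6 : 1 / (nv P M x ^ 2 + r ^ 2) ≤ 1 / r ^ 2 :=
        one_div_le_one_div_of_le hr2 (by nlinarith [sq_nonneg (nv P M x)])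
      have h7 : 0 < 1 / (nv P M x ^ 2 + r ^ 2) := by have := hpos x; positivity
      linarith
    have h6 : ‖wd a (cx fun w => nv P M w ^ 2) x‖ ≤ B := by
      have := hB2 x (hne x hx) a
      rw [hx, mul_one] at this
      exact this
    refine (mul_le_mul h5 h6 (norm_nonneg _) (by positivity)).trans (le_of_eq ?_)
    ring
  have hφb : ∀ (x : Fin N → ℂ), nrm x = 1 → |φ x| ≤ C2 / r := by
    intro x hx
    have h1 : |nv P M x ^ 2| ≤ B := hB1 x (hne x hx)
    have h2 : nv P M x ^ 2 ≤ B := (le_abs_self _).trans h1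
    have h3 : Real.log (nv P M x ^ 2 + r ^ 2) ≤ B := by
      have h4 := Real.log_le_sub_one_of_pos (hpos x)
      have h5 : r ^ 2 ≤ 1 := by nlinarith
      linarith
    have h4 : -(2 * (1 / r)) ≤ Real.log (nv P M x ^ 2 + r ^ 2) := by
      have h5 : Real.log (r ^ 2) ≤ Real.log (nv P M x ^ 2 + r ^ 2) :=
        Real.log_le_log hr2 (by nlinarith [sq_nonneg (nv P M x)])
      rw [Real.log_pow] at h5
      have h6 := Real.log_le_sub_one_of_pos (show 0 < 1 / r by positivity)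
      rw [one_div, Real.log_inv] at h6
      rw [one_div]
      push_cast at h5
      linarith
    have h5 : 1 ≤ 1 / r := by
      rw [le_div_iff₀ hr]
      linarith
    have h6 : C2 / r = C2 * (1 / r) := by ring
    rw [h6]
    simp only [φ, C2]
    rw [abs_le]
    constructor
    · nlinarith
    · nlinarith
  -- the product
  have hprod : ∀ (x : Fin N → ℂ), nrm x = 1 → ∀ a,
      DifferentiableAt ℝ (cx fun w => ∏ i ∈ Finset.Ico 0 j, f i w) x ∧
      ‖wd a (cx fun w => ∏ i ∈ Finset.Ico 0 j, f i w) x‖ ≤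
        j * (C0 / r ^ 2 * (N * (K ^ (j + 1) * B))) := by
    intro x hx a
    have h1 := prod_wd hW1 a x (Finset.Ico 0 j) f
      (fun _ => C0 / r ^ 2 * (N * (K ^ (j + 1) * B)))
      (fun i _ => ((KJ_cx_contDiff (hf0 i).smooth).contDiffAt
        (isOpen_compl_singleton.mem_nhds (hne x hx))).differentiableAt (by simp))
      (fun i _ => hf01 i x) (fun i _ => hfw i x hx a)
    rw [Finset.sum_const, Nat.card_Ico, Nat.sub_zero, nsmul_eq_mul] at h1
    exact h1
  have hpr01 : ∀ x, 0 ≤ ∏ i ∈ Finset.Ico 0 j, f i x ∧ ∏ i ∈ Finset.Ico 0 j, f i x ≤ 1 :=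
    fun x => ⟨Finset.prod_nonneg fun i _ => (hf01 i x).1,
      Finset.prod_le_one (fun i _ => (hf01 i x).1) fun i _ => (hf01 i x).2⟩
  refine ⟨?_, ?_, ?_⟩
  · rw [hκ']
    refine ⟨?_, ?_⟩
    · exact (contDiffOn_prod fun i _ => (hf0 i).smooth).mul hφ0.smooth
    · intro l z hl hz
      show (∏ i ∈ Finset.Ico 0 j, f i (l • z)) * φ (l • z) = _
      rw [hφ0.hom l z hl hz]
      congr 1
      exact Finset.prod_congr rfl fun i _ => (hf0 i).hom l z hl hz
  · intro x hx
    rw [hκ']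
    show |(∏ i ∈ Finset.Ico 0 j, f i x) * φ x| ≤ 2 * K * T / r
    rw [abs_mul, abs_of_nonneg (hpr01 x).1]
    have h1 : (∏ i ∈ Finset.Ico 0 j, f i x) * |φ x| ≤ 1 * (C2 / r) :=
      mul_le_mul (hpr01 x).2 (hφb x hx) (abs_nonneg _) zero_le_one
    refine h1.trans ?_
    rw [one_mul]
    refine div_le_div_of_nonneg_right ?_ hr.le
    have h2 : C2 ≤ T := by simp only [T]; linarith
    nlinarith
  · intro x hx a
    have e1 : (fun w => (κ w : ℂ)) =
        fun w => cx (fun w => ∏ i ∈ Finset.Ico 0 j, f i w) w * cx φ w := by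
      funext w
      rw [hκ']
      unfold cx
      push_cast
      rfl
    obtain ⟨hp1, hp2⟩ := hprod x hx a
    have hp3 : DifferentiableAt ℝ (cx φ) x := ((KJ_cx_contDiff hφ0.smooth).contDiffAt
        (isOpen_compl_singleton.mem_nhds (hne x hx))).differentiableAt (by simp)
    rw [e1, (hW1 (Fin N) a _ _ x hp1 hp3).2.2.1]
    refine (norm_add_le _ _).trans ?_
    rw [norm_mul, norm_mul]
    have n1 : ‖cx (fun w => ∏ i ∈ Finset.Ico 0 j, f i w) x‖ ≤ 1 := by
      unfold cx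
      rw [Complex.norm_real, Real.norm_of_nonneg (hpr01 x).1]
      exact (hpr01 x).2
    have n2 : ‖cx φ x‖ ≤ C2 / r := by
      unfold cx
      rw [Complex.norm_real, Real.norm_eq_abs]
      exact hφb x hx
    have m1 : ‖cx (fun w => ∏ i ∈ Finset.Ico 0 j, f i w) x‖ * ‖wd a (cx φ) x‖ ≤
        1 * (B / r ^ 2) := mul_le_mul n1 (hφw x hx a) (norm_nonneg _) zero_le_one
    have m2 : ‖cx φ x‖ * ‖wd a (cx fun w => ∏ i ∈ Finset.Ico 0 j, f i w) x‖ ≤
        C2 / r * (j * (C0 / r ^ 2 * (N * (K ^ (j + 1) * B)))) :=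
      mul_le_mul n2 hp2 (norm_nonneg _) (by positivity)
    refine (add_le_add m1 m2).trans ?_
    have hKj : 1 ≤ K ^ (j + 1) := one_le_pow₀ hK
    have h2j : (1 : ℝ) ≤ 2 ^ (j + 1) := one_le_pow₀ (by norm_num)
    have hj2 : (j : ℝ) ≤ 2 ^ (j + 1) := by
      have h1 : j < 2 ^ j := Nat.lt_two_pow_self
      have h2 : j ≤ 2 ^ (j + 1) := h1.le.trans (Nat.pow_le_pow_right (by norm_num) (by omega))
      exact_mod_cast h2
    have hTj : T ≤ T ^ (j + 1) := by
      calc T = T ^ 1 := (pow_one T).symm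
        _ ≤ T ^ (j + 1) := pow_le_pow_right₀ hT1 (by omega)
    have s1 : 1 * (B / r ^ 2) ≤ B / r ^ 3 := by
      rw [one_mul]
      refine div_le_div_of_nonneg_left (by linarith) hr3 ?_
      nlinarith
    have s2 : C2 / r * (j * (C0 / r ^ 2 * (N * (K ^ (j + 1) * B)))) =
        (C2 * (C0 * (N * B)) * (j * K ^ (j + 1))) / r ^ 3 := by
      field_simp
    rw [s2]
    refine (add_le_add_left s1 _).trans ?_
    rw [← add_div]
    refine div_le_div_of_nonneg_right ?_ hr3.le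
    have s3 : (2 * K * T) ^ (j + 1) = 2 ^ (j + 1) * K ^ (j + 1) * T ^ (j + 1) := by
      rw [mul_pow, mul_pow]
    rw [s3]
    have s4 : B ≤ 2 ^ (j + 1) * K ^ (j + 1) * B := by
      have : 1 ≤ (2 : ℝ) ^ (j + 1) * K ^ (j + 1) := by nlinarith
      nlinarith
    have s5 : C2 * (C0 * (N * B)) * (j * K ^ (j + 1)) ≤
        2 ^ (j + 1) * K ^ (j + 1) * (C2 * (C0 * (N * B))) := by
      have h1 : (j : ℝ) * K ^ (j + 1) ≤ 2 ^ (j + 1) * K ^ (j + 1) :=
        mul_le_mul_of_nonneg_right hj2 (by linarith)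
      calc C2 * (C0 * (N * B)) * (j * K ^ (j + 1))
          ≤ C2 * (C0 * (N * B)) * (2 ^ (j + 1) * K ^ (j + 1)) :=
            mul_le_mul_of_nonneg_left h1 hNB
        _ = _ := by ring
    have s6 : 2 ^ (j + 1) * K ^ (j + 1) * (B + C2 * (C0 * (N * B))) ≤
        2 ^ (j + 1) * K ^ (j + 1) * T ^ (j + 1) := by
      refine mul_le_mul_of_nonneg_left (le_trans ?_ hTj) (by positivity)
      simp only [T]
      linarith
    linarith

end Pool.Agent.H61.EQ
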